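import Pool.Agent.Work.MP_884187_pr.Final
import Pool.Agent.Work.MP_884187_pr.A1
import Pool.Agent.Work.MP_884187_pr.A2
import Pool.Agent.Work.MP_884187_pr.A3
import Pool.Agent.Work.MP_884187_pr.A4
import Pool.Agent.Work.MP_884187_pr.A5
import Pool.Agent.Work.MP_884187_pr.A6
import Pool.Agent.Work.MP_884187_pr.B1
import Pool.Agent.Work.MP_884187_pr.C1
import Pool.Agent.Work.MP_884187_pr.C2
import Pool.Agent.Work.MP_884187_pr.C3
import Pool.Agent.Work.MP_884187_pr.C4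
import Pool.Agent.Work.MP_884187_pr.C6
import Pool.Agent.Work.MP_884187_pr.D1
import Pool.Agent.Work.MP_884187_pr.D2
import Pool.Agent.Work.MP_884187_pr.D3
import Pool.Agent.Work.MP_884187_pr.E0
import Pool.Agent.Work.MP_884187_pr.E1
import Pool.Agent.Work.MP_884187_pr.E2
import Pool.Agent.Work.MP_884187_pr.E3
import Pool.Agent.Work.MP_884187_pr.E5
import Pool.Agent.Work.MP_884187_pr.E6
import Pool.Agent.Work.MP_884187_pr.F
import Pool.Agent.Work.MP_884187_pr.G
import Pool.Agent.Work.MP_884187_pr.H0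
import Pool.Agent.Work.MP_884187_pr.H1
import Pool.Agent.Work.MP_884187_pr.H2
import Pool.Agent.Work.MP_884187_pr.L1
import Pool.Agent.Work.MP_884187_pr.L2
import Pool.Agent.Work.MP_884187_pr.L3
import Pool.Agent.Work.MP_884187_pr.L4

/-!
MP_884187_pr, Q1: sharp asymptotics of the two-dimensional matching cost `W_p^p(μ_n, μ)` for
every real `p ≥ 1` (the case `p = 1` included).

The plane is `ℝ × ℝ` with the Euclidean length `len v = sqrt (v.1^2 + v.2^2)`; `U` is the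
Lebesgue measure of `[0,1]^2`; `Wpp p ν ρ` is the infimum of `∫ |x - y|^p dπ` over all couplings;
`emp n X` is the empirical measure of `n` points.  The limit is
`(4 π)^(-p/2) exp ((1/2) ∫_0^1 (1 - x^2) dr/r + (1/2) ∫_1^∞ (p - 1 - x^2) dr/r)`, where
`x` is a positive solution of `2 r x' = r (p - 1 - x^2) + x - x^3` on `(0, ∞)` with `x(0+) = 1`
(such a solution exists, and every such solution gives the limit).
-/

open MeasureTheory Set Filter Topology Match2D

universe u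

namespace Pool.Agent.Results.MP_884187_pr.SharpLimit

theorem result (p : ℝ) (hp : 1 ≤ p) :
    (∃ x : ℝ → ℝ, IsProfile p x) ∧ ∀ x : ℝ → ℝ, IsProfile p x →
      IntegrableOn (fun r => (1 - x r ^ 2) / r) (Ioc (0 : ℝ) 1) ∧
      IntegrableOn (fun r => (p - 1 - x r ^ 2) / r) (Ioi (1 : ℝ)) ∧
      ∀ (Ω : Type u) [MeasurableSpace Ω] (P : Measure Ω) [IsProbabilityMeasure P]
        (X : ℕ → Ω → ℝ × ℝ), (∀ i, Measurable (X i)) → (∀ i, P.map (X i) = U) →
        ProbabilityTheory.iIndepFun X P →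
        Tendsto (fun n : ℕ => ((n : ℝ) / Real.log n) ^ (p / 2) *
          ∫ ω, (Wpp p (emp n (fun i => X i ω)) U).toReal ∂P) atTop
          (𝓝 ((4 * Real.pi) ^ (-(p / 2)) *
            Real.exp ((∫ r in Ioc (0 : ℝ) 1, (1 - x r ^ 2) / r) / 2
              + (∫ r in Ioi (1 : ℝ), (p - 1 - x r ^ 2) / r) / 2))) := by
  have hA4 : StmtA4 := A4 A1 A2
  have hA7 : StmtA7 := A7 A1
  have hC2 : StmtC2 := C2 C1
  have hC4 : StmtC4 := C4 C1 hC2 C3 C3' C8
  have hC6 : StmtC6 := C6 C1 hC2 C3'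
  have hC7 : StmtC7 := C7 C1 C3' C5
  have hD1 : StmtD1 := D1 A0
  have hE3 : StmtE3 := E3 E0
  have hE : StmtE := E E1 E2 hE3 E5
  have hF : StmtF := F E0
  have hD2 : StmtD2 := D2 A0 A5 hD1
  have hH1 : StmtH1 := H1 C1 hC2 C3 C3' hC4 C5 hC6 C8 H0
  have hH2 : StmtH2 := H2 A1 hA4 A6 hA7 B1 hC2 hC4 C5 hC7 C8 hD2 D3 hE hH1
  have hL2 : StmtL2 := L2 C1 hC2 C5 C9 C10 L1
  have hL3 : StmtL3 := L3 C1 hC2 C3' C5 C10 H0 L1 hL2
  have hL4 : StmtL4 := L4 A3 hA4 hF hL3
  exact Fin_main hA4 stmtG hH2 hL4 p hp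

end Pool.Agent.Results.MP_884187_pr.SharpLimit
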